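import Pool.Agent.ODP.Final2

/-!
# The conjecture on the second largest volume for Gorenstein klt points of embedding codimension
at most four or multiplicity at most six

The definitions are in `Pool/Agent/ODP/Defs.lean` and `Pool/Agent/ODP/Defs2.lean`.
-/

open scoped WithZero ENNReal
open Pool.Agent.ODP

namespace Pool.Agent.Results.MP_3b0329_ag.CodimFour

/-- Let `k` be an algebraically closed field of characteristic `0` and `n ≥ 2`. Let `B` be a normal
domain, finite and free over `k[y_1, …, y_n]`, let `x` be a singular closed point of `Spec B` with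
`y_i ∈ x` such that `(y_1, …, y_n)` is a reduction of the maximal ideal `m` of `B_x`, let the form
`g⁻¹ dy_1 ∧ … ∧ dy_n` generate the canonical sheaf at `x`, and let `x` be klt. Then
`e = dim_k (B_x / (y))` is the multiplicity of `x`. If the embedding codimension of `x` is at most
`4`, or `e ≤ 6`, or in the further cases listed, then the normalized volume of `x` is at most
`2 (n - 1) ^ n`, with equality only if `x` is an `A_1`-singularity. -/
theorem result {k : Type*} [Field k] [IsAlgClosed k] [CharZero k] {n : ℕ} (hn : 2 ≤ n)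
    {B K : Type*} [CommRing B] [IsDomain B] [IsIntegrallyClosed B] [Algebra k B]
    [Field K] [Algebra B K] [IsFractionRing B K] [Algebra k K] [IsScalarTower k B K]
    (y : Fin n → B) (hy : IsFiniteFree k y)
    (x : Ideal B) [x.IsMaximal] (hyx : ∀ i, y i ∈ x) (hred : IsReductionAt x y)
    (g : K) (hg : IsCanonicalAt k x (fun i => algebraMap B K (y i)) g)
    (hklt : HasPosLogDiscrepancies k x y g) (hsing : n < embDim x)
    (h : embDim x ≤ n + 4 ∨ paramLength k x y ≤ 6 ∨
      (embDim x ≤ n + 6 ∧
        ¬ IsLocalRing.maximalIdeal (Localization.AtPrime x) ^ 3 ≤ paramIdeal x y) ∨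
      (n ≤ 7 ∧ (embDim x ≤ n + 5 ∨ paramLength k x y ≤ 7)) ∨
      (n ≤ 5 ∧ (embDim x ≤ n + 6 ∨ paramLength k x y ≤ 8)) ∨
      (n = 4 ∧ (embDim x ≤ n + 8 ∨ paramLength k x y ≤ 10))) :
    localVol k x y g ≤ ENNReal.ofReal (2 * ((n : ℝ) - 1) ^ n) ∧
      (¬ IsNodeAt n x → localVol k x y g < ENNReal.ofReal (2 * ((n : ℝ) - 1) ^ n)) :=
  localVol_small' hn y hy x hyx hred g hg hklt hsing h

end Pool.Agent.Results.MP_3b0329_ag.CodimFour
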