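import Pool.Agent.Odp3.Main.Ineq
import Pool.Agent.Odp3.Eq.Final
import Pool.Agent.Odp3.Alg.Noether

/-!
# The second largest normalized volume of klt singularities

The definitions are in `Pool/Agent/Odp3/Coord.lean` (`IsCoord`), `Pool/Agent/Odp2/Defs.lean` (from
`Pt` to `IsRCanonicalAt`), `Pool/Agent/ODP/Defs.lean` and `Pool/Agent/ODP/Defs2.lean`.
-/

open scoped WithZero ENNReal
open Pool.Agent.ODP Pool.Agent.Odp3

namespace Pool.Agent.Results.MP_3b0329_ag.VolumeGap

/-- Let `B` be a normal domain of finite type over `ℂ` and let `x` be a point of `Spec B`. Then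
there are coordinates `y_1, …, y_n` at `x`: they are algebraically independent, `B` is finite over
`ℂ[y_1, …, y_n]`, they vanish at `x` and generate a reduction of the maximal ideal of `B_x`. Let
`y` be any coordinates at `x`, let `n ≥ 2`, let `x` be a singular point, let
`(dy_1 ∧ … ∧ dy_n)^r = h ω_r` for a generator `ω_r` of `𝒪(r K)` at `x`, `r ≥ 1`, and let `x` be
klt. Then the normalized volume of `x` is at most `2 (n - 1) ^ n`, with equality only if `x` is an
`A_1`-singularity. -/
theorem result {B K : Type} [CommRing B] [IsDomain B] [IsIntegrallyClosed B] [Algebra ℂ B]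
    [Algebra.FiniteType ℂ B] [Field K] [Algebra B K] [IsFractionRing B K] [Algebra ℂ K]
    [IsScalarTower ℂ B K] (x : Pt B) :
    (∃ (n : ℕ) (y : Fin n → B), IsCoord y x) ∧
    ∀ (n : ℕ) (y : Fin n → B), IsCoord y x → 2 ≤ n → n < embDim (RingHom.ker x) →
      ∀ (r : ℕ) (h : B), 0 < r →
      IsRCanonicalAt ℂ (RingHom.ker x) (fun i => algebraMap B K (y i)) r (algebraMap B K h) →
      IsKltAt y h (1 / (r : ℝ)) x →
      nvol y h (1 / (r : ℝ)) x ≤ ENNReal.ofReal (2 * ((n : ℝ) - 1) ^ n) ∧
        (nvol y h (1 / (r : ℝ)) x = ENNReal.ofReal (2 * ((n : ℝ) - 1) ^ n) →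
          IsNodeAt n (RingHom.ker x)) := by
  refine ⟨exists_coord x, fun n y hy hn hsing r h hr hK hklt => ?_⟩
  refine ⟨nvol_le_two_mul hn y hy.finite hy.indep x hy.zero hy.red r hr h hK hklt hsing,
    fun he => ?_⟩
  by_contra hnode
  exact (nvol_lt_two_mul hn y hy.finite hy.indep x hy.zero hy.red r hr h hK hklt hsing
    hnode).ne he

end Pool.Agent.Results.MP_3b0329_ag.VolumeGap
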